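import Pool.Agent.Helper15.UL.GoalsE

/-! Packet CL4 of MP_57a173_lc (helper15). -/

noncomputable section

namespace UL.PkCL4

open Pool.Agent.Helper97.Ku NU MeasureTheory

theorem thm (h2 : UL.G_CL2) (h3 : UL.G_CL3) (hclo : UL.G_CLO) : UL.G_CL4 := by
  intro I _ _ hHF hHT hord ι B r b hb hα
  by_contra hcon
  push Not at hcon
  obtain ⟨φ, hφ⟩ := Fc.ne_bot_iff.1 hb
  have key : ∀ (T : ℕ → PF (ℕ ⊕ (I × ℕ))) (lam : Pt I → Pt I), IsM lam →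
      ∃ (μ : Pt I → Pt I) (Z : Pt I → ℕ → Bool), IsM μ ∧ (∀ n, LC Set.univ (fun z => Z z n)) ∧
        ∃ ρ : ℕ → BA I, (∀ j, Dc (φ ∘ lam ∘ μ) (ρ j) {z | Z z j = true}) ∧
          Fc (φ ∘ lam ∘ μ) (⨆ i, (B i ⊓ ⨅ j, iffV (ρ j) ((T j).ev (at2 (r i)))))ᶜ := by
    intro T lam hlam
    have hω : Fc (φ ∘ lam) b := hφ.comp hlam
    have hK : ¬ K2 B r (pr (φ ∘ lam)) := hcon _ (pr_le hω) (pr_ne_bot hω.isM)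
    exact h2 I hHF ι B r (φ ∘ lam) hω.isM hK T
  obtain ⟨α, hcl⟩ := hclo I hord (fun T lam μ Z =>
    ∃ ρ : ℕ → BA I, (∀ j, Dc (φ ∘ lam ∘ μ) (ρ j) {z | Z z j = true}) ∧
      Fc (φ ∘ lam ∘ μ) (⨆ i, (B i ⊓ ⨅ j, iffV (ρ j) ((T j).ev (at2 (r i)))))ᶜ) key
  obtain ⟨lam, hlam, S, hS, hmain⟩ := h3 I hHF hHT ι B r φ α (hφ.mono (hα α))
  obtain ⟨T, hT, μ, Z, hμ, hZ, ρ, hρ, hcompl⟩ := hcl lam hlam S hS
  obtain ⟨h, hh, hfc⟩ := hmain T hT μ Z hμ hZ ρ hρ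
  exact hfc.not_both (hcompl.comp hh)

end UL.PkCL4
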